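import Pool.Agent.Lib.C37.All

open MeasureTheory

namespace Pool.Agent.Results.MP_15b3df_nt.Boyd37a

/-- Boyd's conjecture for the rank one curve of conductor 37: the Mahler measure of
`y² + 4xy + y - x³ + x²` is `-(7/2) L'(f,0)` for the weight 2 cusp form
`f = q - 2q² - 3q³ + 2q⁴ - 2q⁵ + 6q⁶ + ⋯` on `Γ₀(37)`. -/
theorem result : ∃ (f : CuspForm (CongruenceSubgroup.Gamma0 37) 2) (a : ℕ → ℂ),
    (∀ τ : UpperHalfPlane,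
      HasSum (fun n : ℕ => a n * Complex.exp (2 * (Real.pi : ℂ) * Complex.I * (τ : ℂ)) ^ n) (f τ)) ∧
    a 1 = 1 ∧ a 2 = -2 ∧ a 3 = -3 ∧ a 4 = 2 ∧ a 5 = -2 ∧ a 6 = 6 ∧
    ∃ L : ℂ → ℂ, Differentiable ℂ L ∧ (∀ s : ℂ, 2 < s.re → LSeriesHasSum a s (L s)) ∧
      L 0 = 0 ∧ deriv L 0 ≠ 0 ∧
      ((∫ θ in Set.Icc (0 : Fin 2 → ℝ) 1,
          Real.log ‖Complex.exp (2 * (Real.pi : ℂ) * Complex.I * (θ 1 : ℂ)) ^ 2 +
            4 * Complex.exp (2 * (Real.pi : ℂ) * Complex.I * (θ 0 : ℂ)) *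
              Complex.exp (2 * (Real.pi : ℂ) * Complex.I * (θ 1 : ℂ)) +
            Complex.exp (2 * (Real.pi : ℂ) * Complex.I * (θ 1 : ℂ)) -
            Complex.exp (2 * (Real.pi : ℂ) * Complex.I * (θ 0 : ℂ)) ^ 3 +
            Complex.exp (2 * (Real.pi : ℂ) * Complex.I * (θ 0 : ℂ)) ^ 2‖ : ℝ) : ℂ) =
        -(7 / 2) * deriv L 0 :=
  C37.main

end Pool.Agent.Results.MP_15b3df_nt.Boyd37a
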