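import Pool.Agent.Lib.BK2.ZAll2
import Pool.Agent.Lib.BK2.NFAll
import Pool.Agent.Lib.BK2.NAll
import Pool.Agent.Lib.BK2.ZEFin

namespace Pool.Agent.Results.MP_15b3df_nt.CurveK2Onto

open Pool.Agent.Lib.BK2

/-- The regulator on the integral part of `K₂` of a projective curve over a number field is onto:
for every regular differential form `ω` and all loops `γ l` on the complex points, the vector of the
imaginary parts of the periods of `ω` is a real combination of regulator vectors of integral sums
of symbols. -/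
theorem result (L : Type) [Field L] [Algebra ℚ L] (n : ℕ) (y : Fin (n + 1) → L)
    (h1 : Algebra.trdeg ℚ L = 1)
    (h2 : IntermediateField.adjoin ℚ
      (Set.range fun q : Fin (n + 1) × Fin (n + 1) => y q.1 / y q.2) = ⊤)
    (ω : (Fin (n + 1) → ℂ) → (Fin (n + 1) → ℂ) → ℂ) (hω : RegForm y ω)
    (ι : Type) [Fintype ι] (γ : ι → Loop y) :
    (fun l => (period ω (γ l)).im) ∈ Submodule.span ℝ
      {r : ι → ℝ | ∃ s : List (Lˣ × Lˣ), Integral s ∧ (∀ l, Avoids s (γ l)) ∧
        r = fun l => reg s (γ l)} :=
  All.fin stG0 (stZE1 NT.allTUP) L n y h1 h2 ω hω ι γ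

end Pool.Agent.Results.MP_15b3df_nt.CurveK2Onto
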