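import Pool.Agent.Lib.RV5.All

open MeasureTheory

namespace Pool.Agent.Results.MP_15b3df_nt.MahlerFiveL

/-- The Rodriguez-Villegas conjecture: the Mahler measure of `1 + x₁ + ⋯ + x₄` is `-L'(f,-1)`
for the weight 3 level 15 cusp form `f = η(3τ)³η(5τ)³ + η(τ)³η(15τ)³`. -/
theorem result : ∃ a : ℕ → ℤ,
    (∀ τ : ℂ, 0 < τ.im →
      HasSum (fun n : ℕ => (a n : ℂ) * Complex.exp (2 * (Real.pi : ℂ) * Complex.I * τ) ^ n)
        (ModularForm.eta (3 * τ) ^ 3 * ModularForm.eta (5 * τ) ^ 3 +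
          ModularForm.eta τ ^ 3 * ModularForm.eta (15 * τ) ^ 3)) ∧
    ∃ L : ℂ → ℂ, Differentiable ℂ L ∧
      (∀ s : ℂ, 3 < s.re → LSeriesHasSum (fun n : ℕ => (a n : ℂ)) s (L s)) ∧
      L (-1) = 0 ∧ deriv L (-1) ≠ 0 ∧
      ((∫ θ in Set.Icc (0 : Fin 4 → ℝ) 1,
          Real.log ‖(1 : ℂ) + ∑ j : Fin 4, Complex.exp (2 * (Real.pi : ℂ) * Complex.I * (θ j : ℂ))‖
          : ℝ) : ℂ) = -deriv L (-1) := by
  have e : ∀ t : ℝ, Complex.exp (2 * (Real.pi : ℂ) * Complex.I * (t : ℂ)) = RV6.ee t := fun t => by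
    unfold RV6.ee; congr 1; push_cast; ring
  simp only [e]
  exact RV5.main

end Pool.Agent.Results.MP_15b3df_nt.MahlerFiveL
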