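import Pool.Agent.Lib.MP_15b3df_nt.RV17

open MeasureTheory

namespace Pool.Agent.Results.MP_15b3df_nt.MahlerSixL

/-- The Rodriguez-Villegas conjecture: the Mahler measure of `1 + x₁ + ⋯ + x₅` is `-8 L'(f,-1)`
for the weight 4 level 6 cusp form `f = η(τ)²η(2τ)²η(3τ)²η(6τ)²`. -/
theorem result : ∃ a : ℕ → ℤ,
    (∀ τ : ℂ, 0 < τ.im →
      HasSum (fun n : ℕ => (a n : ℂ) * Complex.exp (2 * (Real.pi : ℂ) * Complex.I * τ) ^ n)
        (ModularForm.eta τ ^ 2 * ModularForm.eta (2 * τ) ^ 2 * ModularForm.eta (3 * τ) ^ 2 *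
          ModularForm.eta (6 * τ) ^ 2)) ∧
    ∃ L : ℂ → ℂ, Differentiable ℂ L ∧
      (∀ s : ℂ, 6 < s.re → LSeriesHasSum (fun n : ℕ => (a n : ℂ)) s (L s)) ∧
      L (-1) = 0 ∧ deriv L (-1) ≠ 0 ∧
      ((∫ θ in Set.Icc (0 : Fin 5 → ℝ) 1,
          Real.log ‖(1 : ℂ) + ∑ j : Fin 5, Complex.exp (2 * (Real.pi : ℂ) * Complex.I * (θ j : ℂ))‖
          : ℝ) : ℂ) = -8 * deriv L (-1) := by
  have e : ∀ t : ℝ, Complex.exp (2 * (Real.pi : ℂ) * Complex.I * (t : ℂ)) = RV6.ee t := fun t => by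
    unfold RV6.ee; congr 1; push_cast; ring
  simp only [e]
  exact RV6.mahler_L

end Pool.Agent.Results.MP_15b3df_nt.MahlerSixL
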